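import Pool.Agent.H52.W.SR.Short
import Pool.Agent.H52.W.CG3.All

/-!
# The final theorem, uniform in the set of primes
-/

set_option autoImplicit false

namespace Pool.Agent.H52.W.SR

variable [Lam]

open Finset Filter NumberField Pool.Agent.H38R2.CG Pool.Agent.H52.W.CG2 Pool.Agent.H52.W.CG3
open Pool.Agent.H38R2.CG.FINh
open scoped Classical

/-- uniform form in terms of the discriminants -/
theorem final_q (hN0 : P_N0) (hN0d : P_N0d) (hN1 : P_N1) (hN3 : P_N3) (h4 : P_N4) (hKF : P_KF)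
    (h5b : P_N5b) (hN6 : P_N6) (hBF : P2_BF) (hHB : P2_HB) (hHD : P2_HD) (hCH : P2_CH)
    (hBHa : P2_BHa) (hAS : P3_AS0) : ∀ a ε τ : ℝ, 2 < a → 0 < ε → 0 < τ → ∃ X0 : ℕ, ∀ X ≥ X0,
      ∀ Q : Set ℕ, (((Finset.Icc 2 X).filter (fun d => Squarefree d ∧
        (∀ q ∈ Q, q.Prime → ¬ q ∣ d) ∧ ¬ GoodE a ε d)).card : ℝ) ≤ τ * X * pq Q X := by
  intro a ε τ ha hε hτ
  have ht0 : 0 < min ε (1 / 4) := lt_min hε (by norm_num)
  obtain ⟨L, hL0, hL1, -, -⟩ := id hCH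
  obtain ⟨c, hc, hlow⟩ := pq_low hL0 hL1
  set τ' : ℝ := τ / (16 * Real.exp (2 * L)) with hτ'
  have hE : 0 < Real.exp (2 * L) := Real.exp_pos _
  have hτ'0 : 0 < τ' := by positivity
  obtain ⟨η, hη, hη1, X0, hX0⟩ := short_q hBF hHB hHD hCH hBHa hAS a ha _ ht0 τ' hτ'0
  obtain ⟨X1, hX1⟩ := exc_bd hN0 hN0d hN1 hN3 h4 hKF h5b hN6 a ha ε
  set M0 : ℝ := (X0 : ℝ) + X1 with hM0
  have hM00 : 0 ≤ M0 := by positivity
  set C : ℝ := 6 / η + 2 * M0 + 2 with hC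
  have hC0 : 0 < C := by positivity
  -- the terms of lower order
  have htend : Tendsto (fun X : ℕ => (X : ℝ) ^ (3 / 8 : ℝ)) atTop atTop :=
    (tendsto_rpow_atTop (by norm_num)).comp tendsto_natCast_atTop_atTop
  obtain ⟨Y0, hY0⟩ := Filter.eventually_atTop.mp
    (htend.eventually_ge_atTop ((C + 4) * 2 / (τ * c)))
  refine ⟨max Y0 1, fun Y hY Q => ?_⟩
  have hY1 : 1 ≤ Y := (le_max_right _ _).trans hY
  have hYR : (1 : ℝ) ≤ Y := by exact_mod_cast hY1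
  have hYY := hY0 Y ((le_max_left _ _).trans hY)
  set R : ℕ → Prop := fun D => ∃ d : ℕ, 1 < d ∧ Squarefree d ∧
    ((∀ q ∈ Q, q.Prime → ¬ q ∣ d) ∧ ¬ GoodE a ε d) ∧ D = Dof d with hR
  set Z : ℕ := 4 * Y with hZ
  have hZ1 : 1 ≤ Z := by omega
  have hsZ : 0 ≤ √(Z : ℝ) := Real.sqrt_nonneg _
  have hstep : ∀ X : ℕ, M0 + √(Z : ℝ) ≤ X →
      (NR R ⌊(1 + η) * X⌋₊ : ℝ) ≤ NR R X + (τ' * (Real.exp (2 * L) * pq Q Z)) * η * X := by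
    intro X hX
    have hX00 : (0 : ℝ) ≤ X0 := by positivity
    have hX11 : (0 : ℝ) ≤ X1 := by positivity
    have hXX0 : X0 ≤ X := by
      have : (X0 : ℝ) ≤ X := by linarith
      exact_mod_cast this
    have hXX1 : X1 ≤ X := by
      have : (X1 : ℝ) ≤ X := by linarith
      exact_mod_cast this
    have hXZ : √(Z : ℝ) ≤ X := by linarith
    have hle : X ≤ ⌊(1 + η) * (X : ℝ)⌋₊ := by
      apply Nat.le_floor
      have : (0 : ℝ) ≤ X := by positivity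
      nlinarith
    have h2 := NR_add R hle
    have h3 := hX0 X hXX0 Q
    have h2' : (NR R ⌊(1 + η) * (X : ℝ)⌋₊ : ℝ) ≤
        NR R X + (((Finset.Ioc X ⌊(1 + η) * (X : ℝ)⌋₊).filter R).card : ℝ) := by
      exact_mod_cast h2
    have hsub : ((Finset.Ioc X ⌊(1 + η) * (X : ℝ)⌋₊).filter R) ⊆
        (Finset.Ioc X ⌊(1 + η) * (X : ℝ)⌋₊).filter
          (fun D => (∀ q ∈ Q, q.Prime → 3 ≤ q → ¬ q ∣ D) ∧
            IsFund D ∧ Bd a (min ε (1 / 4)) X D) := by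
      intro D hD
      rw [Finset.mem_filter] at hD ⊢
      obtain ⟨hD1, d, hd1, hds, ⟨hdQ, hg⟩, rfl⟩ := hD
      refine ⟨hD1, ?_, ?_⟩
      · intro q hq hqp hq3 hqd
        apply hdQ q hq hqp
        unfold Dof at hqd
        split_ifs at hqd
        · exact hqd
        · rcases (Nat.Prime.dvd_mul hqp).1 hqd with h5 | h5
          · exfalso
            have h6 : q ∣ 2 ^ 2 := by norm_num; exact h5
            have h7 := hqp.dvd_of_dvd_pow h6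
            have := Nat.le_of_dvd (by norm_num) h7
            omega
          · exact h5
      · refine hX1 X hXX1 d hd1 hds hg (Finset.mem_Ioc.1 hD1).1 ?_
        have h1 := (Finset.mem_Ioc.1 hD1).2
        have h2 : ((⌊(1 + η) * (X : ℝ)⌋₊ : ℕ) : ℝ) ≤ (1 + η) * (X : ℝ) :=
          Nat.floor_le (by positivity)
        have h3 : (Dof d : ℝ) ≤ (⌊(1 + η) * (X : ℝ)⌋₊ : ℝ) := by exact_mod_cast h1
        have h5 : (Dof d : ℝ) ≤ 2 * (X : ℝ) := by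
          have : (0 : ℝ) ≤ X := by positivity
          nlinarith
        exact_mod_cast h5
    have h4 : (((Finset.Ioc X ⌊(1 + η) * (X : ℝ)⌋₊).filter R).card : ℝ) ≤
        τ' * η * X * pq Q X := by
      refine le_trans ?_ h3
      exact_mod_cast Finset.card_le_card hsub
    have h5 : pq Q X ≤ Real.exp (2 * L) * pq Q Z := by
      refine le_trans (pq_anti Q ?_) (pq_sqrt hL1 Q Z hZ1)
      have : ((⌊√(Z : ℝ)⌋₊ : ℕ) : ℝ) ≤ X := (Nat.floor_le hsZ).trans hXZ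
      exact_mod_cast this
    have h6 : τ' * η * X * pq Q X ≤ τ' * η * X * (Real.exp (2 * L) * pq Q Z) :=
      mul_le_mul_of_nonneg_left h5 (by positivity)
    linarith
  have hpZ := pq_pos Q Z
  have h5 := PFh.iter (NR R) (NR_le R) (NR_mono R) η (τ' * (Real.exp (2 * L) * pq Q Z))
    (M0 + √(Z : ℝ)) hη hη1 (by positivity) (by positivity) hstep Z
  have hcn : ((Finset.Icc 2 Y).filter (fun d => Squarefree d ∧
        (∀ q ∈ Q, q.Prime → ¬ q ∣ d) ∧ ¬ GoodE a ε d)).card ≤ NR R (4 * Y) := by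
    unfold NR
    refine Finset.card_le_card_of_injOn Dof ?_ ?_
    · intro d hd
      rw [Finset.mem_coe, Finset.mem_filter, Finset.mem_Icc] at hd
      rw [Finset.mem_coe, Finset.mem_filter, Finset.mem_Ioc]
      have h1 : 1 < d := by omega
      refine ⟨⟨?_, ?_⟩, d, h1, hd.2.1, hd.2.2, rfl⟩
      · have := (isFund_Dof h1 hd.2.1).1
        omega
      · refine (Dof_le d).trans ?_
        omega
    · intro d _ d' _ h
      exact Dof_inj h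
  have hcn' : (((Finset.Icc 2 Y).filter (fun d => Squarefree d ∧
        (∀ q ∈ Q, q.Prime → ¬ q ∣ d) ∧ ¬ GoodE a ε d)).card : ℝ) ≤ NR R Z := by
    exact_mod_cast hcn
  have hsqrt : √(Z : ℝ) = 2 * √(Y : ℝ) := by
    rw [hZ]
    push_cast
    rw [Real.sqrt_mul (by norm_num)]
    congr 1
    rw [show (4 : ℝ) = 2 ^ 2 by norm_num]
    exact Real.sqrt_sq (by norm_num)
  have hpp : pq Q Z ≤ pq Q Y := pq_anti Q (by omega)
  have hpY := pq_pos Q Y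
  have hlowY := hlow Q Y hY1
  -- the small terms
  have hs1 : 1 ≤ √(Y : ℝ) := by rwa [Real.one_le_sqrt]
  have hYhalf : (Y : ℝ) ^ (3 / 8 : ℝ) * √(Y : ℝ) = Y * (Y : ℝ) ^ (-(1 / 8) : ℝ) := by
    rw [Real.sqrt_eq_rpow, ← Real.rpow_add (by linarith)]
    nth_rw 2 [← Real.rpow_one (Y : ℝ)]
    rw [← Real.rpow_add (by linarith)]
    norm_num
  have hsmall : C + 4 * √(Y : ℝ) ≤ τ / 2 * Y * pq Q Y := by
    have h1 : C + 4 * √(Y : ℝ) ≤ (C + 4) * √(Y : ℝ) := by nlinarith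
    have h2 : (C + 4) * √(Y : ℝ) ≤ τ * c / 2 * ((Y : ℝ) ^ (3 / 8 : ℝ) * √(Y : ℝ)) := by
      have h3 : (C + 4) ≤ τ * c / 2 * (Y : ℝ) ^ (3 / 8 : ℝ) := by
        rw [div_le_iff₀ (by positivity)] at hYY
        nlinarith
      calc (C + 4) * √(Y : ℝ) ≤ (τ * c / 2 * (Y : ℝ) ^ (3 / 8 : ℝ)) * √(Y : ℝ) :=
            mul_le_mul_of_nonneg_right h3 (by positivity)
        _ = _ := by ring
    rw [hYhalf] at h2
    have h4 : τ * c / 2 * (Y * (Y : ℝ) ^ (-(1 / 8) : ℝ)) ≤ τ / 2 * Y * pq Q Y := by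
      calc τ * c / 2 * (Y * (Y : ℝ) ^ (-(1 / 8) : ℝ)) =
            τ / 2 * Y * (c * (Y : ℝ) ^ (-(1 / 8) : ℝ)) := by ring
        _ ≤ _ := mul_le_mul_of_nonneg_left hlowY (by positivity)
    linarith
  have hmain : 2 * (τ' * (Real.exp (2 * L) * pq Q Z)) * (Z : ℝ) ≤ τ / 2 * Y * pq Q Y := by
    have h1 : 2 * (τ' * (Real.exp (2 * L) * pq Q Z)) * (Z : ℝ) = τ / 2 * Y * pq Q Z := by
      rw [hτ', hZ]
      push_cast
      field_simp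
      ring
    rw [h1]
    exact mul_le_mul_of_nonneg_left hpp (by positivity)
  calc _ ≤ (NR R Z : ℝ) := hcn'
    _ ≤ _ := h5
    _ ≤ τ / 2 * Y * pq Q Y + (C + 4 * √(Y : ℝ)) := by
        rw [hsqrt] at *
        have : 6 / η + 2 * (M0 + 2 * √(Y : ℝ)) + 2 = C + 4 * √(Y : ℝ) := by rw [hC]; ring
        linarith
    _ ≤ _ := by linarith

/-- all the ingredients hold -/
theorem ingredients : P_N0 ∧ P_N0d ∧ P_N1 ∧ P_N3 ∧ P_N4 ∧ P_KF ∧ P_N5b ∧ P_N6 ∧ P2_BF ∧ P2_HB ∧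
    P2_HD ∧ P2_CH ∧ P2_BHa ∧ P3_AS0 := by
  have h_P_N0 : P_N0 := T_N0
  have h_P_N0d : P_N0d := T_N0d
  have h_P_SPL : P_SPL := T_SPL h_P_N0
  have h_P_N1 : P_N1 := T_N1 h_P_SPL
  have h_P_N2 : P_N2 := T_N2 h_P_SPL
  have h_P_KR : P_KR := T_KR
  have h_P_PV : P_PV := T_PV
  have h_P_N3a : P_N3a := T_N3a h_P_KR h_P_PV
  have h_P_N3b : P_N3b := T_N3b h_P_KR h_P_PV h_P_N3a
  have h_P_N3 : P_N3 := T_N3 h_P_N2 h_P_N3b
  have h_P_N4a : P_N4a := T_N4a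
  have h_P_N4b : P_N4b := T_N4b
  have h_P_N4 : P_N4 := T_N4 h_P_N4a h_P_N4b
  have h_P_KF : P_KF := T_KF
  have h_P_N5b : P_N5b := T_N5b h_P_KF h_P_N4
  have h_P_N6 : P_N6 := T_N6 h_P_KF
  have h_P2_TRIV : P2_TRIV := T2_TRIV
  have h_P_N0e : P_N0e := T_N0e h_P_N0d
  have h_P_N5a : P_N5a := T_N5a h_P_KF
  have h_P_N5 : P_N5 := T_N5 h_P_N3 h_P_N4 h_P_N5a h_P_N5b
  have h_P_NF : P_NF := T_NF h_P_N0 h_P_N0e h_P_N1 h_P_N3 h_P_N5 h_P_N6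
  have h_P_NB : P_NB := T_NB
  have h_P2_NB : P2_NB := T2_NB h_P_NB
  have h_P2_WT : P2_WT := T2_WT
  have h_P2_V0 : P2_V0 := T2_V0 h_P2_WT
  have h_P2_V1 : P2_V1 := T2_V1 h_P_PV h_P2_WT
  have h_P2_LM : P2_LM := T2_LM h_P_N3a h_P2_WT h_P2_V0 h_P2_V1
  have h_P2_SZ : P2_SZ := T2_SZ
  have h_P2_M1L : P2_M1L := T2_M1L h_P2_SZ h_P2_NB h_P2_WT h_P2_V0 h_P2_V1
  have h_P2_COMB : P2_COMB := T2_COMB
  have h_P2_PAIR : P2_PAIR := T2_PAIR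
  have h_P2_MLOW : P2_MLOW := T2_MLOW h_P2_SZ h_P2_NB h_P2_COMB h_P2_PAIR h_P2_WT h_P2_V0 h_P2_V1
  have h_P_TB2 : P_TB2 := T_TB2
  have h_P2_T1a : P2_T1a := T2_T1a
  have h_P2_T1 : P2_T1 := T2_T1 h_P2_WT h_P2_T1a
  have h_P2_R1 : P2_R1 := T2_R1
  have h_P2_R2 : P2_R2 := T2_R2
  have h_P2_T2 : P2_T2 := T2_T2 h_P2_R1 h_P2_R2
  have h_P2_JP : P2_JP := T2_JP
  have h_P_TB3a : P_TB3a := T_TB3a
  have h_P2_ERR : P2_ERR := T2_ERR h_P2_SZ h_P2_NB h_P2_WT h_P2_V0 h_P2_R1 h_P_TB3a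
  have h_P2_FJ : P2_FJ := T2_FJ
  have h_P2_OMC : P2_OMC := T2_OMC
  have h_P2_OM : P2_OM := T2_OM h_P_TB2 h_P2_FJ h_P2_OMC
  have h_P_TB3c : P_TB3c := T_TB3c
  have h_P_TB6b : P_TB6b := T_TB6b
  have h_P_TB6c : P_TB6c := T_TB6c
  have h_P2_FS : P2_FS := T2_FS
  have h_P2_JX : P2_JX := T2_JX
  have h_P2_KB : P2_KB := T2_KB
  have h_P2_HS : P2_HS := T2_HS
  have h_P_LS : P_LS := T_LS
  have h_P_CC5 : P_CC5 := T_CC5 h_P_LS h_P_NB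
  have h_P_CC6 : P_CC6 := T_CC6 h_P_NB
  have h_P2_CC7 : P2_CC7 := T2_CC7 h_P_CC5 h_P_CC6
  have h_P_CC1 : P_CC1 := T_CC1
  have h_P_BT : P_BT := T_BT
  have h_P_CC3 : P_CC3 := T_CC3 h_P_BT h_P_NB
  have h_P2_CC4 : P2_CC4 := T2_CC4 h_P_CC1 h_P_CC3
  have h_P2_NBAD : P2_NBAD := T2_NBAD h_P2_NB h_P2_CC4
  have h_P2_TC : P2_TC := T2_TC h_P2_NB h_P2_FJ h_P2_FS h_P2_JX h_P2_KB h_P2_HS h_P2_CC7 h_P2_NBAD
  have h_P_TB6a : P_TB6a := T_TB6a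
  have h_P2_TD : P2_TD := T2_TD h_P_TB6a h_P_TB3c
  have h_P2_TE : P2_TE := T2_TE h_P2_NB h_P2_FJ h_P2_FS h_P2_JX h_P2_KB h_P2_HS h_P2_CC7 h_P2_NBAD h_P2_TD
  have h_P2_TA : P2_TA := T2_TA h_P_TB3c h_P_TB6b h_P_TB6c h_P2_FJ h_P2_JP h_P2_TC h_P2_TE
  have h_P2_TMa : P2_TMa := T2_TMa h_P2_SZ h_P2_NB h_P_TB2 h_P2_FJ h_P2_JP h_P2_OMC h_P2_OM h_P2_TA
  have h_P2_TMb : P2_TMb := T2_TMb h_P2_SZ h_P2_NB h_P_TB2 h_P_TB3c h_P2_FJ h_P2_JP h_P2_OMC h_P2_OM h_P2_TC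
  have h_P2_TC0 : P2_TC0 := T2_TC0 h_P2_FJ h_P2_JX h_P2_KB h_P2_HS
  have h_P2_TMc : P2_TMc := T2_TMc h_P2_SZ h_P2_NB h_P_TB2 h_P_TB3c h_P2_FJ h_P2_JP h_P2_OMC h_P2_OM h_P2_TC0
  have h_P2_TM : P2_TM := T2_TM h_P2_SZ h_P2_NB h_P2_COMB h_P2_PAIR h_P_TB2 h_P2_WT h_P2_T1 h_P2_T2 h_P2_JP h_P2_ERR h_P2_TMa h_P2_TMb h_P2_TMc
  have h_P3_AS0 : P3_AS0 := T3_AS0 h_P_NF h_P2_NB h_P2_WT h_P2_LM h_P2_M1L h_P2_MLOW h_P2_TM
  have h_P2_BF : P2_BF := T2_BF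
  have h_P2_HB : P2_HB := T2_HB
  have h_P2_HD : P2_HD := T2_HD h_P2_BF h_P2_HB
  have h_P2_CH : P2_CH := T2_CH
  have h_P2_BHa : P2_BHa := T2_BHa
  exact ⟨h_P_N0, h_P_N0d, h_P_N1, h_P_N3, h_P_N4, h_P_KF, h_P_N5b, h_P_N6, h_P2_BF, h_P2_HB,
    h_P2_HD, h_P2_CH, h_P2_BHa, h_P3_AS0⟩

theorem final : ∀ a ε τ : ℝ, 2 < a → 0 < ε → 0 < τ → ∃ X0 : ℕ, ∀ X ≥ X0,
      ∀ Q : Set ℕ, (((Finset.Icc 2 X).filter (fun d => Squarefree d ∧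
        (∀ q ∈ Q, q.Prime → ¬ q ∣ d) ∧ ¬ GoodE a ε d)).card : ℝ) ≤
      τ * X * ∏ q ∈ (Finset.Icc 2 X).filter (fun q => q.Prime ∧ q ∈ Q), (1 - 1 / (q : ℝ)) := by
  obtain ⟨hN0, hN0d, hN1, hN3, h4, hKF, h5b, hN6, hBF, hHB, hHD, hCH, hBHa, hAS⟩ := ingredients
  intro a ε τ ha hε hτ
  obtain ⟨X0, hX0⟩ := final_q hN0 hN0d hN1 hN3 h4 hKF h5b hN6 hBF hHB hHD hCH hBHa hAS a ε
    (τ / 2) ha hε (by positivity)
  refine ⟨X0, fun X hX Q => (hX0 X hX Q).trans ?_⟩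
  have h1 : pq Q X ≤ 2 * ∏ q ∈ (Finset.Icc 2 X).filter (fun q => q.Prime ∧ q ∈ Q),
      (1 - 1 / (q : ℝ)) := by
    have hpos := pq_pos Q X
    have hsub : (Finset.Icc 3 X).filter (fun q => q.Prime ∧ q ∈ Q) ⊆
        (Finset.Icc 2 X).filter (fun q => q.Prime ∧ q ∈ Q) :=
      Finset.filter_subset_filter _ (Finset.Icc_subset_Icc_left (by norm_num))
    rw [← Finset.prod_sdiff hsub]
    have h2 : (1 / 2 : ℝ) ≤ ∏ q ∈ (Finset.Icc 2 X).filter (fun q => q.Prime ∧ q ∈ Q) \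
        (Finset.Icc 3 X).filter (fun q => q.Prime ∧ q ∈ Q), (1 - 1 / (q : ℝ)) := by
      have hsub2 : (Finset.Icc 2 X).filter (fun q => q.Prime ∧ q ∈ Q) \
          (Finset.Icc 3 X).filter (fun q => q.Prime ∧ q ∈ Q) ⊆ {2} := by
        intro q hq
        rw [Finset.mem_sdiff, Finset.mem_filter, Finset.mem_filter, Finset.mem_Icc,
          Finset.mem_Icc] at hq
        rw [Finset.mem_singleton]
        by_contra hne
        exact hq.2 ⟨⟨by omega, hq.1.1.2⟩, hq.1.2⟩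
      have h3 : ∏ q ∈ ({2} : Finset ℕ), (1 - 1 / (q : ℝ)) = 1 / 2 := by
        rw [Finset.prod_singleton]
        norm_num
      rw [← h3]
      apply BHch.prod_anti _ _ hsub2
      intro p hp
      rw [Finset.mem_singleton] at hp
      rw [hp]
      exact Nat.prime_two
    show pq Q X ≤ 2 * (_ * pq Q X)
    nlinarith
  calc τ / 2 * X * pq Q X ≤ τ / 2 * X * (2 * ∏ q ∈ (Finset.Icc 2 X).filter
      (fun q => q.Prime ∧ q ∈ Q), (1 - 1 / (q : ℝ))) :=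
        mul_le_mul_of_nonneg_left h1 (by positivity)
    _ = _ := by ring

end Pool.Agent.H52.W.SR
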