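import Pool.Agent.H52.W.CG2.BH
import Pool.Agent.H52.W.CG2.BHa
import Pool.Agent.H52.W.CG2.BHc
import Pool.Agent.H52.W.CG2.RC

/-!
# Upper bound sieve weights for an arbitrary set of primes
-/

set_option autoImplicit false

namespace Pool.Agent.H52.W.SR

variable [Lam]

open Finset Filter NumberField Pool.Agent.H38R2.CG Pool.Agent.H52.W.CG2
open scoped Classical

/-- the blocks of primes, restricted to the primes of `Q` -/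
noncomputable def bq (Q : Set ℕ) (z : ℕ) (a : ℝ) (X : ℕ) (δ : ℝ) (j : ℕ) : Finset ℕ :=
  (blk z a X δ j).filter (fun p => p ∈ Q)

/-- the weights for the set `Q` -/
noncomputable def rq (Q : Set ℕ) (z : ℕ) (a : ℝ) (X : ℕ) (δ : ℝ) : ℕ → ℝ :=
  rhoB X (bq Q z a X δ) (fun j => j + 1)

/-- the product of `1 - 1/q` over the primes `3 ≤ q ≤ Y` of `Q` -/
noncomputable def pq (Q : Set ℕ) (Y : ℕ) : ℝ :=
  ∏ q ∈ (Finset.Icc 3 Y).filter (fun q => q.Prime ∧ q ∈ Q), (1 - (1 : ℝ) / q)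

lemma pq_pos (Q : Set ℕ) (Y : ℕ) : 0 < pq Q Y :=
  BHch.prod_pos' _ (fun _ hp => (Finset.mem_filter.mp hp).2.1)

lemma pq_le_one (Q : Set ℕ) (Y : ℕ) : pq Q Y ≤ 1 :=
  BHch.prod_le_one' _ (fun _ hp => (Finset.mem_filter.mp hp).2.1)

lemma pq_anti (Q : Set ℕ) {Y Z : ℕ} (h : Y ≤ Z) : pq Q Z ≤ pq Q Y := by
  apply BHch.prod_anti
  · exact Finset.filter_subset_filter _ (Finset.Icc_subset_Icc_right h)
  · intro p hp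
    exact (Finset.mem_filter.mp hp).2.1

lemma pq_mono {Q R : Set ℕ} (h : Q ⊆ R) (Y : ℕ) : pq R Y ≤ pq Q Y := by
  apply BHch.prod_anti
  · intro p hp
    rw [Finset.mem_filter] at hp ⊢
    exact ⟨hp.1, hp.2.1, h hp.2.2⟩
  · intro p hp
    exact (Finset.mem_filter.mp hp).2.1

lemma pq_univ_le (Q : Set ℕ) (Y : ℕ) : pq Set.univ Y ≤ pq Q Y :=
  pq_mono (Set.subset_univ Q) Y

lemma bq_sub (Q : Set ℕ) (z : ℕ) (a : ℝ) (X : ℕ) (δ : ℝ) (j : ℕ) :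
    bq Q z a X δ j ⊆ blk z a X δ j := Finset.filter_subset _ _

lemma rq_ne {Q : Set ℕ} {z : ℕ} {a : ℝ} {X : ℕ} {δ : ℝ} (hX : 1 ≤ X) (hδ : 0 < δ) {d : ℕ}
    (h : rq Q z a X δ d ≠ 0) : rhoX z a X δ d ≠ 0 ∧ ∀ p ∈ d.primeFactors, p ∈ Q := by
  unfold rq rhoB at h
  have hc : Squarefree d ∧ (∀ p ∈ d.primeFactors, ∃ j < X, p ∈ bq Q z a X δ j) ∧
      (∀ j < X, (d.primeFactors ∩ bq Q z a X δ j).card ≤ 2 * (j + 1)) := by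
    by_contra hcon
    exact h (if_neg hcon)
  obtain ⟨h1, h2, h3⟩ := hc
  have h2' : ∀ p ∈ d.primeFactors, ∃ j < X, p ∈ blk z a X δ j := by
    intro p hp
    obtain ⟨j, hj, hpj⟩ := h2 p hp
    exact ⟨j, hj, bq_sub _ _ _ _ _ _ hpj⟩
  have hQ : ∀ p ∈ d.primeFactors, p ∈ Q := by
    intro p hp
    obtain ⟨j, hj, hpj⟩ := h2 p hp
    exact (Finset.mem_filter.mp hpj).2
  have h3' : ∀ j < X, (d.primeFactors ∩ blk z a X δ j).card ≤ 2 * (j + 1) := by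
    intro j hj
    refine le_trans (Finset.card_le_card ?_) (h3 j hj)
    intro p hp
    rw [Finset.mem_inter] at hp ⊢
    refine ⟨hp.1, ?_⟩
    unfold bq
    rw [Finset.mem_filter]
    exact ⟨hp.2, hQ p hp.1⟩
  refine ⟨?_, hQ⟩
  unfold rhoX rhoB
  rw [if_pos ⟨h1, h2', h3'⟩]
  exact pow_ne_zero _ (by norm_num)

/-- sums of `1 / p` over `X ^ (1 / 2 ^ m) < p ≤ X` -/
lemma sum_tail {L : ℝ} (hL : ∀ x : ℝ, 1 ≤ x →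
      ∑ p ∈ (Finset.Ioc ⌊√x⌋₊ ⌊x⌋₊).filter Nat.Prime, (1 : ℝ) / p ≤ L) (X : ℕ) (hX : 1 ≤ X)
    (m : ℕ) : ∑ p ∈ (Finset.Ioc ⌊(X : ℝ) ^ ((1 : ℝ) / 2 ^ m)⌋₊ X).filter Nat.Prime, (1 : ℝ) / p ≤
      m * L := by
  have hX1 : (1 : ℝ) ≤ X := by exact_mod_cast hX
  induction m with
  | zero => simp
  | succ m ih =>
    have h1 : (1 : ℝ) ≤ (X : ℝ) ^ ((1 : ℝ) / 2 ^ m) := Real.one_le_rpow hX1 (by positivity)
    have h2 := hL _ h1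
    have e : √((X : ℝ) ^ ((1 : ℝ) / 2 ^ m)) = (X : ℝ) ^ ((1 : ℝ) / 2 ^ (m + 1)) := by
      rw [Real.sqrt_eq_rpow, ← Real.rpow_mul (by positivity)]
      congr 1
      rw [pow_succ]
      field_simp
    rw [e] at h2
    have hsub : (Finset.Ioc ⌊(X : ℝ) ^ ((1 : ℝ) / 2 ^ (m + 1))⌋₊ X).filter Nat.Prime ⊆
        (Finset.Ioc ⌊(X : ℝ) ^ ((1 : ℝ) / 2 ^ (m + 1))⌋₊
          ⌊(X : ℝ) ^ ((1 : ℝ) / 2 ^ m)⌋₊).filter Nat.Prime ∪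
        (Finset.Ioc ⌊(X : ℝ) ^ ((1 : ℝ) / 2 ^ m)⌋₊ X).filter Nat.Prime := by
      intro p hp
      rw [Finset.mem_filter, Finset.mem_Ioc] at hp
      rw [Finset.mem_union, Finset.mem_filter, Finset.mem_filter, Finset.mem_Ioc, Finset.mem_Ioc]
      rcases Nat.lt_or_ge ⌊(X : ℝ) ^ ((1 : ℝ) / 2 ^ m)⌋₊ p with h | h
      · exact Or.inr ⟨⟨h, hp.1.2⟩, hp.2⟩
      · exact Or.inl ⟨⟨hp.1.1, h⟩, hp.2⟩
    calc _ ≤ ∑ p ∈ (Finset.Ioc ⌊(X : ℝ) ^ ((1 : ℝ) / 2 ^ (m + 1))⌋₊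
          ⌊(X : ℝ) ^ ((1 : ℝ) / 2 ^ m)⌋₊).filter Nat.Prime ∪
        (Finset.Ioc ⌊(X : ℝ) ^ ((1 : ℝ) / 2 ^ m)⌋₊ X).filter Nat.Prime, (1 : ℝ) / p :=
          Finset.sum_le_sum_of_subset_of_nonneg hsub (fun p _ _ => by positivity)
      _ ≤ _ := by
          have e1 := Finset.sum_union_inter (s₁ := (Finset.Ioc ⌊(X : ℝ) ^ ((1 : ℝ) / 2 ^ (m + 1))⌋₊
            ⌊(X : ℝ) ^ ((1 : ℝ) / 2 ^ m)⌋₊).filter Nat.Prime)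
            (s₂ := (Finset.Ioc ⌊(X : ℝ) ^ ((1 : ℝ) / 2 ^ m)⌋₊ X).filter Nat.Prime)
            (f := fun p : ℕ => (1 : ℝ) / p)
          have e2 : 0 ≤ ∑ p ∈ (Finset.Ioc ⌊(X : ℝ) ^ ((1 : ℝ) / 2 ^ (m + 1))⌋₊
            ⌊(X : ℝ) ^ ((1 : ℝ) / 2 ^ m)⌋₊).filter Nat.Prime ∩
            (Finset.Ioc ⌊(X : ℝ) ^ ((1 : ℝ) / 2 ^ m)⌋₊ X).filter Nat.Prime, (1 : ℝ) / p :=
            Finset.sum_nonneg (fun p _ => by positivity)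
          have e3 : ∑ p ∈ (Finset.Ioc ⌊(X : ℝ) ^ ((1 : ℝ) / 2 ^ (m + 1))⌋₊
            ⌊(X : ℝ) ^ ((1 : ℝ) / 2 ^ m)⌋₊).filter Nat.Prime ∪
            (Finset.Ioc ⌊(X : ℝ) ^ ((1 : ℝ) / 2 ^ m)⌋₊ X).filter Nat.Prime, (1 : ℝ) / p ≤
            ∑ p ∈ (Finset.Ioc ⌊(X : ℝ) ^ ((1 : ℝ) / 2 ^ (m + 1))⌋₊
            ⌊(X : ℝ) ^ ((1 : ℝ) / 2 ^ m)⌋₊).filter Nat.Prime, (1 : ℝ) / p +
            ∑ p ∈ (Finset.Ioc ⌊(X : ℝ) ^ ((1 : ℝ) / 2 ^ m)⌋₊ X).filter Nat.Prime, (1 : ℝ) / p := by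
            linarith
          exact e3
      _ ≤ L + m * L := add_le_add h2 ih
      _ = ((m + 1 : ℕ) : ℝ) * L := by push_cast; ring

end Pool.Agent.H52.W.SR
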